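import Pool.Agent.Q40.OD.Fam3

/-!
MP_6a3dac_ag: regular proper flat models of the members of families of hypersurfaces, over the rings
of integers of all number fields (and over all Dedekind domains) at once.

Let `R` be an integral domain, for example the ring of integers of a number field, and `F` a family
over `R` of forms of degree `d ≥ 2` in `n + 2` variables, `n ≥ 1`: the coefficients of `F` are forms
of degree `e` in the parameters `t_0, ..., t_m`. Let `B` be a finite set of polynomials in the
parameters, such that all members of the family over the algebraic closure at which some `b` in `B`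
does not vanish have only nondegenerate singular points (invertible Hessian).

1. There is `N ≠ 0` in `R` such that for every Dedekind domain `O` over `R` with fraction field `L`, for
   example for the rings of integers of all number fields `L`, and all parameters `t` over `L`:
   the member `F_t`, if it is smooth, has a regular proper flat model over `O`, provided that for all
   nonzero primes `𝔭` of `O` either `N` is not in `𝔭` and `t` modulo `𝔭` is not a zero of `B` or the
   hypersurface `F_t = 0` has, in suitable coordinates over `L`, an equation over `O` whose scheme is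
   regular over `𝔭` or has only nondegenerate singular points in the fibre over `𝔭`.
2. If all members over the algebraic closure have only nondegenerate singular points, there is
   `N ≠ 0` in `R` such that all smooth members over all `L` as in 1 have a regular proper flat model
   over `O`, if `N` is invertible in `O`.

No bound on the discriminant of `F_t`, on the residue characteristics or on the ramification is
imposed.
-/

set_option autoImplicit false

open AlgebraicGeometry CategoryTheory CategoryTheory.Limits MvPolynomial

namespace Pool.Agent.Results.MP_6a3dac_ag.Families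

/-- The polynomial in the variables `X j`, `j ≠ s`, obtained from `H` by setting `X s = 1`: the
equation of the hypersurface `H = 0` in the chart `X s ≠ 0` of the projective space over `R`. -/
noncomputable def dehom {R : Type} [CommRing R] {m : ℕ} (s : Fin m) (H : MvPolynomial (Fin m) R) :
    MvPolynomial {j : Fin m // j ≠ s} R :=
  aeval (fun j => if h : j = s then 1 else X ⟨j, h⟩) H

/-- The matrix of the second derivatives. -/
noncomputable def hessian {R σ : Type} [CommRing R] (f : MvPolynomial σ R) :
    Matrix σ σ (MvPolynomial σ R) :=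
  Matrix.of fun a b => pderiv a (pderiv b f)

/-- The singular points with coordinates in the field `κ` of the hypersurface `G = 0` are
nondegenerate: in every chart, at every point where the equation and its partial derivatives vanish,
the determinant of the Hessian is not zero. -/
def HasNondegenerateSingularities {κ : Type} [Field κ] {m : ℕ} (G : MvPolynomial (Fin m) κ) :
    Prop :=
  ∀ (s : Fin m) (P : {j : Fin m // j ≠ s} → κ), eval P (dehom s G) = 0 →
    (∀ j, eval P (pderiv j (dehom s G)) = 0) → ((hessian (dehom s G)).map (eval P)).det ≠ 0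

/-- The ideal `Q` of the polynomial ring over `R` lies over `𝔭`. -/
def LiesAbove {R σ : Type} [CommRing R] (𝔭 : Ideal R) (Q : Ideal (MvPolynomial σ R)) : Prop :=
  ∀ r : R, C r ∈ Q ↔ r ∈ 𝔭

/-- The scheme `H = 0` in the projective space over `R` is regular at its points over `𝔭`: for every
chart `s` and every prime `Q` of the polynomial ring of the chart lying over `𝔭` and containing the
equation, the equation is not in the square of the maximal ideal of the localization at `Q`. -/
def IsRegularAt {R : Type} [CommRing R] (𝔭 : Ideal R) {m : ℕ} (H : MvPolynomial (Fin m) R) :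
    Prop :=
  ∀ (s : Fin m) (Q : Ideal (MvPolynomial {j : Fin m // j ≠ s} R)), Q.IsPrime →
    LiesAbove 𝔭 Q → dehom s H ∈ Q → ∀ h, h ∉ Q → h * dehom s H ∉ Q ^ 2

/-- The singular points of the fibre over `𝔭` of the scheme `H = 0` are nondegenerate: for every chart
`s` and every prime `Q` of the polynomial ring of the chart lying over `𝔭` and containing the
equation and its partial derivatives, the determinant of the Hessian is not in `Q`. -/
def IsNondegenerateAt {R : Type} [CommRing R] (𝔭 : Ideal R) {m : ℕ}
    (H : MvPolynomial (Fin m) R) : Prop :=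
  ∀ (s : Fin m) (Q : Ideal (MvPolynomial {j : Fin m // j ≠ s} R)), Q.IsPrime →
    LiesAbove 𝔭 Q → dehom s H ∈ Q → (∀ j, pderiv j (dehom s H) ∈ Q) →
      (hessian (dehom s H)).det ∉ Q

/-- The partial derivatives of `G` have no common zero (over an algebraic closure) but the origin:
every variable has a power in the ideal they generate. -/
def IsSmooth {K : Type} [Field K] {m : ℕ} (G : MvPolynomial (Fin m) K) : Prop :=
  ∀ i, X i ∈ (Ideal.span (Set.range fun j => pderiv j G)).radical

/-- `H` is obtained from `G` by the linear change of coordinates `T` and multiplication with the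
scalar `l`. -/
def IsEquation {R K : Type} [CommRing R] [Field K] [Algebra R K] {m : ℕ}
    (G : MvPolynomial (Fin m) K) (H : MvPolynomial (Fin m) R) (l : K)
    (T : Matrix (Fin m) (Fin m) K) : Prop :=
  map (algebraMap R K) H = C l * aeval (fun i => ∑ j, C (T i j) * X j) G

/-- A linear change of coordinates over `L` and a scalar turn `G` into a form with coefficients in
`O` whose scheme is regular at its points over `𝔭`, or has only nondegenerate singular points in the
fibre over `𝔭`. -/
def HasGoodEquation {O L : Type} [CommRing O] [Field L] [Algebra O L] {m : ℕ} (𝔭 : Ideal O)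
    (G : MvPolynomial (Fin m) L) : Prop :=
  ∃ (H : MvPolynomial (Fin m) O) (l : L) (T T' : Matrix (Fin m) (Fin m) L),
    l ≠ 0 ∧ T * T' = 1 ∧ IsEquation G H l T ∧ (IsRegularAt 𝔭 H ∨ IsNondegenerateAt 𝔭 H)

/-- `F` is a form of degree `d` whose coefficients are forms of degree `e` in the parameters. -/
def IsFamily {R : Type} [CommRing R] {m k : ℕ} (d e : ℕ)
    (F : MvPolynomial (Fin m) (MvPolynomial (Fin k) R)) : Prop :=
  F.IsHomogeneous d ∧ ∀ α, (coeff α F).IsHomogeneous e

/-- The member of the family `F` at `t`, over the ring `A` with the homomorphism `φ`. -/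
noncomputable def member {R A : Type} [CommRing R] [CommRing A] {m k : ℕ} (φ : R →+* A)
    (F : MvPolynomial (Fin m) (MvPolynomial (Fin k) R)) (t : Fin k → A) :
    MvPolynomial (Fin m) A :=
  map (eval₂Hom φ t) F

/-- All members over the algebraic closure of the fraction field of `R`, at which some `b` in `B` does
not vanish, have only nondegenerate singular points. -/
def IsNondegenerateOutside {R : Type} [CommRing R] [IsDomain R] {m k : ℕ}
    (F : MvPolynomial (Fin m) (MvPolynomial (Fin k) R)) (B : Set (MvPolynomial (Fin k) R)) :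
    Prop :=
  ∀ t : Fin k → AlgebraicClosure (FractionRing R),
    (∃ b ∈ B, eval₂ (algebraMap R (AlgebraicClosure (FractionRing R))) t b ≠ 0) →
      HasNondegenerateSingularities (member (algebraMap R (AlgebraicClosure (FractionRing R))) F t)

/-- `N` is not in `𝔭` and the parameter `t` modulo `𝔭` is not a zero of `B`: it has coordinates `l t` in
`O`, such that for some `b` in `B` the value is not in `𝔭`. -/
def AvoidsZeros {R O L : Type} [CommRing R] [CommRing O] [Field L] [Algebra O L] {k : ℕ}
    (φ : R →+* O) (N : R) (B : Set (MvPolynomial (Fin k) R)) (𝔭 : Ideal O) (t : Fin k → L) :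
    Prop :=
  φ N ∉ 𝔭 ∧ ∃ (l : L) (t' : Fin k → O), l ≠ 0 ∧ (∀ i, algebraMap O L (t' i) = l * t i) ∧
    ∃ b ∈ B, eval₂ φ t' b ∉ 𝔭

/-- The dimension of the local ring `A` equals the dimension of its cotangent space. -/
def HasRegularDimension (A : Type) [CommRing A] [IsLocalRing A] : Prop :=
  ringKrullDim A = (((Module.finrank (IsLocalRing.ResidueField A)
    (IsLocalRing.CotangentSpace A) : ℕ) : ℕ∞) : WithBot ℕ∞)

/-- The generic fibre of `g` is isomorphic over `E` to `X` with the morphism `f`. -/
def HasGenericFibre {O E : Type} [CommRing O] [Field E] [Algebra O E] {X Y : Scheme.{0}}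
    (f : X ⟶ Spec (CommRingCat.of E)) (g : Y ⟶ Spec (CommRingCat.of O)) : Prop :=
  ∃ e : pullback g (Spec.map (CommRingCat.ofHom (algebraMap O E))) ≅ X,
    e.hom ≫ f = pullback.snd g (Spec.map (CommRingCat.ofHom (algebraMap O E)))

/-- The morphism `g` from `Y` is a regular proper flat model over `O` of `X` with the morphism `f` to
`Spec E`. -/
def IsRegularProperFlatModel {O E : Type} [CommRing O] [Field E] [Algebra O E] {X Y : Scheme.{0}}
    (f : X ⟶ Spec (CommRingCat.of E)) (g : Y ⟶ Spec (CommRingCat.of O)) : Prop :=
  IsProper g ∧ Flat g ∧ (∀ y : Y, HasRegularDimension (Y.presheaf.stalk y)) ∧ HasGenericFibre f g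

/-- The structure morphism of `Proj ℬ` over `E`. -/
noncomputable def structureMorphism {E B : Type} [Field E] [CommRing B] [Algebra E B]
    (ℬ : ℕ → Submodule E B) [GradedAlgebra ℬ] : Proj ℬ ⟶ Spec (CommRingCat.of E) :=
  Proj.toSpecZero ℬ ≫ Spec.map (CommRingCat.ofHom (algebraMap E (ℬ 0)))

/-- Every scheme `X` over `E` isomorphic over `E` to the hypersurface `Proj (E[X] / (G))` has a
regular proper flat model over `O`. -/
def HypersurfaceHasModel (O : Type) {E : Type} [CommRing O] [Field E] [Algebra O E] {m : ℕ}
    (G : MvPolynomial (Fin m) E) : Prop :=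
  ∀ (B : Type) [CommRing B] [Algebra E B]
    (π : MvPolynomial (Fin m) E →ₐ[E] B), Function.Surjective π →
    RingHom.ker π = Ideal.span {G} →
  ∀ (ℬ : ℕ → Submodule E B) [GradedAlgebra ℬ],
    (∀ d, ℬ d = (homogeneousSubmodule (Fin m) E d).map π.toLinearMap) →
  ∀ (X : Scheme.{0}) (f : X ⟶ Spec (CommRingCat.of E)) (i : X ≅ Proj ℬ),
    i.hom ≫ structureMorphism ℬ = f →
  ∃ (Y : Scheme.{0}) (g : Y ⟶ Spec (CommRingCat.of O)), IsRegularProperFlatModel f g

theorem result :
    ∀ (R : Type) [CommRing R] [IsDomain R] (n d e m : ℕ), 1 ≤ n → 2 ≤ d →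
      ∀ F : MvPolynomial (Fin (n + 2)) (MvPolynomial (Fin (m + 1)) R), IsFamily d e F →
      (∀ B : Set (MvPolynomial (Fin (m + 1)) R), B.Finite → IsNondegenerateOutside F B →
        ∃ N : R, N ≠ 0 ∧
        ∀ (O L : Type) [CommRing O] [IsDedekindDomain O] [Field L] [Algebra O L]
          [IsFractionRing O L] (φ : R →+* O) (t : Fin (m + 1) → L),
          IsSmooth (member ((algebraMap O L).comp φ) F t) →
          (∀ 𝔭 : Ideal O, 𝔭.IsPrime → 𝔭 ≠ ⊥ →
            AvoidsZeros φ N B 𝔭 t ∨ HasGoodEquation 𝔭 (member ((algebraMap O L).comp φ) F t)) →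
          HypersurfaceHasModel O (member ((algebraMap O L).comp φ) F t)) ∧
      (IsNondegenerateOutside F (Set.range X) →
        ∃ N : R, N ≠ 0 ∧
        ∀ (O L : Type) [CommRing O] [IsDedekindDomain O] [Field L] [Algebra O L]
          [IsFractionRing O L] (φ : R →+* O), IsUnit (φ N) →
          ∀ t : Fin (m + 1) → L, t ≠ 0 → IsSmooth (member ((algebraMap O L).comp φ) F t) →
          HypersurfaceHasModel O (member ((algebraMap O L).comp φ) F t)) := by
  intro R _ _ n d e m hn hd F hF
  have main : ∀ B : Set (MvPolynomial (Fin (m + 1)) R), B.Finite → IsNondegenerateOutside F B →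
        ∃ N : R, N ≠ 0 ∧
        ∀ (O L : Type) [CommRing O] [IsDedekindDomain O] [Field L] [Algebra O L]
          [IsFractionRing O L] (φ : R →+* O) (t : Fin (m + 1) → L),
          IsSmooth (member ((algebraMap O L).comp φ) F t) →
          (∀ 𝔭 : Ideal O, 𝔭.IsPrime → 𝔭 ≠ ⊥ →
            AvoidsZeros φ N B 𝔭 t ∨ HasGoodEquation 𝔭 (member ((algebraMap O L).comp φ) F t)) →
          HypersurfaceHasModel O (member ((algebraMap O L).comp φ) F t) := by
    intro B hB hnd
    obtain ⟨N, hN, hcert⟩ := Pool.Agent.Q40.OD.exists_certs (K := FractionRing R) n d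
      (fun α => coeff α.1 F) B hB (by
        intro v hv
        have h1 := hnd v hv
        have h2 := Pool.Agent.Q40.OD.mem_eq_form
          (algebraMap R (AlgebraicClosure (FractionRing R))) F hF.1 v
        change Pool.Agent.Q40.OD.NdField (Pool.Agent.Q40.OD.mem
          (algebraMap R (AlgebraicClosure (FractionRing R))) F v) at h1
        rw [h2] at h1
        convert h1 using 4
        all_goals first | rfl | exact Algebra.algebra_ext _ _ fun r => rfl)
    refine ⟨N, hN, ?_⟩
    intro O L _ _ _ _ _ φ t hsm hloc B' _ _ π hπ hker ℬ _ hℬ X f i hi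
    have hloc' : Pool.Agent.Q40.OD.LocGood O (member ((algebraMap O L).comp φ) F t) := by
      intro 𝔭 hp h0
      rcases hloc 𝔭 hp h0 with h | ⟨H, l, T, T', hl, hT, hH, hreg⟩
      · exact Pool.Agent.Q40.OD.locGoodAt_of_avoids φ F hF.1 hF.2 N B hcert 𝔭 t h
      · refine ⟨H, l, T, T', hl, hT, hH, ?_⟩
        rcases hreg with hreg | hreg
        · exact Or.inl fun s Q hQ hC hG => Or.inr (hreg s Q hQ hC hG)
        · exact Or.inr hreg
    exact Pool.Agent.Q40.OD.od_model_O hn _ d hd
      (Pool.Agent.Q40.OD.mem_homog ((algebraMap O L).comp φ) F hF.1 t) hsm hloc' π hπ hker ℬ hℬ f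
      i hi
  refine ⟨main, fun hnd => ?_⟩
  obtain ⟨N, hN, h⟩ := main (Set.range X) (Set.finite_range _) hnd
  refine ⟨N, hN, ?_⟩
  intro O L _ _ _ _ _ φ hu t ht hsm
  refine h O L φ t hsm fun 𝔭 hp h0 => Or.inl ⟨fun hcon => ?_, ?_⟩
  · exact hp.ne_top (Ideal.eq_top_of_isUnit_mem 𝔭 hcon hu)
  · obtain ⟨l, t', hl, ht', i, hi⟩ := Pool.Agent.Q40.OD.exists_coord t ht 𝔭 h0
    exact ⟨l, t', hl, ht', X i, ⟨i, rfl⟩, by rwa [eval₂_X]⟩

end Pool.Agent.Results.MP_6a3dac_ag.Families
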