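import Pool.Agent.Q46.ND.Uni

/-!
MP_6a3dac_ag: almost all hypersurfaces in congruence classes with good equations at the small primes
have regular proper flat models.

Let `K` be a number field, `n ≥ 1`, `d ≥ 2`. The forms of degree `d` in `n + 2` variables over the
integers of `K` are counted in boxes: the coordinates of the coefficients with respect to a fixed
`ℤ`-basis of the integers are at most `H` in absolute value, and `H` tends to infinity. There is a
constant `C₀`, which depends on `K`, the basis, `n` and `d` only, such that for all `M ≥ 1`, `N ≥ 1`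
and all forms `F₀`:

Suppose that at the primes which divide `M!` and not `N` the hypersurface `F₀ = 0` has, in
suitable coordinates over `K`, an integral equation which is regular or has only nondegenerate
singular points. For all sufficiently large `k` and for a proportion at least `1 - C₀ / M` of all
forms `G` the hypersurface `F₀ + (M!) ^ k G = 0` is smooth over `K` and has a regular proper flat
model over the ring of integers of `K` with `N` inverted.
-/

set_option autoImplicit false

open AlgebraicGeometry CategoryTheory CategoryTheory.Limits MvPolynomial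

open scoped NumberField

namespace Pool.Agent.Results.MP_6a3dac_ag.GoodEquationClasses

/-- The polynomial in the variables `X j`, `j ≠ s`, obtained from `F` by setting `X s = 1`: the
equation of the hypersurface `F = 0` in the chart `X s ≠ 0` of the projective space over `R`. -/
noncomputable def dehom {R : Type} [CommRing R] {m : ℕ} (s : Fin m) (F : MvPolynomial (Fin m) R) :
    MvPolynomial {j : Fin m // j ≠ s} R :=
  aeval (fun j => if h : j = s then 1 else X ⟨j, h⟩) F

/-- The ideal `Q` of the polynomial ring over `R` lies over `𝔭`. -/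
def LiesAbove {R σ : Type} [CommRing R] (𝔭 : Ideal R) (Q : Ideal (MvPolynomial σ R)) : Prop :=
  ∀ r : R, C r ∈ Q ↔ r ∈ 𝔭

/-- For a prime `Q` of `A`, the element `f` is not in the square of the maximal ideal of the
localization of `A` at `Q`. -/
def NotInSquare {A : Type} [CommRing A] (Q : Ideal A) (f : A) : Prop :=
  ∀ h, h ∉ Q → h * f ∉ Q ^ 2

/-- The scheme `F = 0` in the projective space over `R` is regular at its points over `𝔭`: for every
chart `s` and every prime `Q` of the polynomial ring of the chart lying over `𝔭` and containing the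
equation, the equation is not in the square of the maximal ideal of the localization at `Q`. -/
def IsRegularAt {R : Type} [CommRing R] (𝔭 : Ideal R) {m : ℕ} (F : MvPolynomial (Fin m) R) :
    Prop :=
  ∀ (s : Fin m) (Q : Ideal (MvPolynomial {j : Fin m // j ≠ s} R)), Q.IsPrime →
    LiesAbove 𝔭 Q → dehom s F ∈ Q → NotInSquare Q (dehom s F)

/-- The matrix of the second derivatives. -/
noncomputable def hessian {R σ : Type} [CommRing R] (f : MvPolynomial σ R) :
    Matrix σ σ (MvPolynomial σ R) :=
  Matrix.of fun a b => pderiv a (pderiv b f)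

/-- The singular points of the fibre over `𝔭` of the scheme `F = 0` are nondegenerate: for every
chart `s` and every prime `Q` of the polynomial ring of the chart lying over `𝔭` and containing the
equation and its partial derivatives, the determinant of the Hessian matrix is not in `Q`. -/
def HasNondegenerateFibre {R : Type} [CommRing R] (𝔭 : Ideal R) {m : ℕ}
    (F : MvPolynomial (Fin m) R) : Prop :=
  ∀ (s : Fin m) (Q : Ideal (MvPolynomial {j : Fin m // j ≠ s} R)), Q.IsPrime →
    LiesAbove 𝔭 Q → dehom s F ∈ Q → (∀ j, pderiv j (dehom s F) ∈ Q) →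
      (hessian (dehom s F)).det ∉ Q

/-- The partial derivatives of `G` have no common zero (over an algebraic closure) but the origin:
every variable has a power in the ideal they generate. -/
def IsSmooth {E : Type} [Field E] {m : ℕ} (G : MvPolynomial (Fin m) E) : Prop :=
  ∀ i, X i ∈ (Ideal.span (Set.range fun j => pderiv j G)).radical

/-- `H` is obtained from `G` by the linear change of coordinates `T` and multiplication with the
scalar `l`. -/
def IsEquation {R E : Type} [CommRing R] [Field E] [Algebra R E] {m : ℕ}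
    (G : MvPolynomial (Fin m) E) (H : MvPolynomial (Fin m) R) (l : E)
    (T : Matrix (Fin m) (Fin m) E) : Prop :=
  map (algebraMap R E) H = C l * aeval (fun i => ∑ j, C (T i j) * X j) G

/-- An invertible linear change of coordinates over the field and a nonzero scalar turn `G` into a
form with coefficients in `R` whose hypersurface is regular at its points over `𝔭`, or has over `𝔭`
only nondegenerate singular points. -/
def HasGoodEquation {R E : Type} [CommRing R] [Field E] [Algebra R E] (𝔭 : Ideal R) {m : ℕ}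
    (G : MvPolynomial (Fin m) E) : Prop :=
  ∃ (H : MvPolynomial (Fin m) R) (l : E) (T T' : Matrix (Fin m) (Fin m) E),
    l ≠ 0 ∧ T * T' = 1 ∧ IsEquation G H l T ∧ (IsRegularAt 𝔭 H ∨ HasNondegenerateFibre 𝔭 H)

/-- The form over `E` given by a form over `R`. -/
noncomputable def baseChange {R : Type} [CommRing R] (E : Type) [CommRing E] [Algebra R E] {m : ℕ}
    (F : MvPolynomial (Fin m) R) : MvPolynomial (Fin m) E :=
  map (algebraMap R E) F

/-- The forms of degree `d` in `m` variables over the integers of `K` such that the coordinates of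
all coefficients with respect to the basis `ω` are at most `H` in absolute value. -/
def formsUpTo {K ι : Type} [Field K] (ω : Module.Basis ι ℤ (𝓞 K)) (m d H : ℕ) :
    Set (MvPolynomial (Fin m) (𝓞 K)) :=
  {F | F.IsHomogeneous d ∧ ∀ α i, |ω.repr (coeff α F) i| ≤ (H : ℤ)}

/-- For all sufficiently large `H` the proportion of the forms with property `P` among the forms
with coordinates at most `H` is at least `c`. -/
def AtLeast {K ι : Type} [Field K] (ω : Module.Basis ι ℤ (𝓞 K)) (m d : ℕ) (c : ℝ)
    (P : MvPolynomial (Fin m) (𝓞 K) → Prop) : Prop :=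
  ∃ H₀ : ℕ, ∀ H : ℕ, H₀ ≤ H →
    c * ((formsUpTo ω m d H).ncard : ℝ) ≤ ({F ∈ formsUpTo ω m d H | P F}.ncard : ℝ)

/-- The dimension of the local ring `A` equals the dimension of its cotangent space. -/
def HasRegularDimension (A : Type) [CommRing A] [IsLocalRing A] : Prop :=
  ringKrullDim A = (((Module.finrank (IsLocalRing.ResidueField A)
    (IsLocalRing.CotangentSpace A) : ℕ) : ℕ∞) : WithBot ℕ∞)

/-- The generic fibre of `g` is isomorphic over `E` to `X` with the morphism `f`. -/
def HasGenericFibre {R E : Type} [CommRing R] [Field E] [Algebra R E] {X Y : Scheme.{0}}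
    (f : X ⟶ Spec (CommRingCat.of E)) (g : Y ⟶ Spec (CommRingCat.of R)) : Prop :=
  ∃ e : pullback g (Spec.map (CommRingCat.ofHom (algebraMap R E))) ≅ X,
    e.hom ≫ f = pullback.snd g (Spec.map (CommRingCat.ofHom (algebraMap R E)))

/-- The morphism `g` from `Y` is a regular proper flat model over `R` of `X` with the morphism `f` to
`Spec E`. -/
def IsRegularProperFlatModel {R E : Type} [CommRing R] [Field E] [Algebra R E] {X Y : Scheme.{0}}
    (f : X ⟶ Spec (CommRingCat.of E)) (g : Y ⟶ Spec (CommRingCat.of R)) : Prop :=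
  IsProper g ∧ Flat g ∧ (∀ y : Y, HasRegularDimension (Y.presheaf.stalk y)) ∧ HasGenericFibre f g

/-- The structure morphism of `Proj ℬ` over `E`. -/
noncomputable def structureMorphism {E B : Type} [Field E] [CommRing B] [Algebra E B]
    (ℬ : ℕ → Submodule E B) [GradedAlgebra ℬ] : Proj ℬ ⟶ Spec (CommRingCat.of E) :=
  Proj.toSpecZero ℬ ≫ Spec.map (CommRingCat.ofHom (algebraMap E (ℬ 0)))

/-- Every scheme `X` over `E` isomorphic over `E` to the hypersurface `Proj (E[X] / (G))` has a
regular proper flat model over the ring `R` with field of fractions `E`. -/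
def HypersurfaceHasModel (R : Type) {E : Type} [CommRing R] [Field E] [Algebra R E] {m : ℕ}
    (G : MvPolynomial (Fin m) E) : Prop :=
  ∀ (B : Type) [CommRing B] [Algebra E B]
    (π : MvPolynomial (Fin m) E →ₐ[E] B), Function.Surjective π →
    RingHom.ker π = Ideal.span {G} →
  ∀ (ℬ : ℕ → Submodule E B) [GradedAlgebra ℬ],
    (∀ d, ℬ d = (homogeneousSubmodule (Fin m) E d).map π.toLinearMap) →
  ∀ (X : Scheme.{0}) (f : X ⟶ Spec (CommRingCat.of E)) (i : X ≅ Proj ℬ),
    i.hom ≫ structureMorphism ℬ = f →
  ∃ (Y : Scheme.{0}) (g : Y ⟶ Spec (CommRingCat.of R)), IsRegularProperFlatModel f g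

/-- The hypersurface `F = 0` over `K` has a regular proper flat model over the ring of integers of
`K` with `N` inverted. -/
def HasModelAwayFrom {K : Type} [Field K] {m : ℕ} (N : ℕ) (F : MvPolynomial (Fin m) K) : Prop :=
  ∀ (R : Type) [CommRing R] [Algebra (𝓞 K) R] [Algebra R K] [IsScalarTower (𝓞 K) R K]
    [IsLocalization.Away (N : 𝓞 K) R], HypersurfaceHasModel R F

theorem result (K : Type) [Field K] [NumberField K] (ι : Type) [Fintype ι]
    (ω : Module.Basis ι ℤ (𝓞 K)) (n d : ℕ) (hn : 1 ≤ n) (hd : 2 ≤ d) :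
    ∃ C₀ : ℝ, ∀ M N : ℕ, 1 ≤ M → 1 ≤ N →
      ∀ F₀ : MvPolynomial (Fin (n + 2)) (𝓞 K), F₀.IsHomogeneous d →
      (∀ 𝔭 : Ideal (𝓞 K), 𝔭.IsPrime → (M.factorial : 𝓞 K) ∈ 𝔭 → (N : 𝓞 K) ∉ 𝔭 →
        HasGoodEquation 𝔭 (baseChange K F₀)) →
      ∃ k₀ : ℕ, ∀ k : ℕ, k₀ ≤ k → AtLeast ω (n + 2) d (1 - C₀ / M) fun G =>
        IsSmooth (baseChange K (F₀ + C ((M.factorial : 𝓞 K) ^ k) * G)) ∧
        HasModelAwayFrom N (baseChange K (F₀ + C ((M.factorial : 𝓞 K) ^ k) * G)) := by
  obtain ⟨C₀, h⟩ := Pool.Agent.Q46.ND.uni_counts ω n d hd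
  refine ⟨C₀, fun M N hM hN F₀ hF₀ hgood => ?_⟩
  obtain ⟨-, h2⟩ := h M N hM F₀ hF₀
  have hN0 : N ≠ 0 := Nat.one_le_iff_ne_zero.1 hN
  obtain ⟨k₀, hk₀⟩ := h2 fun 𝔭 hp hM𝔭 hN𝔭 => by
    obtain ⟨H, l, T, T', hl, hT, hH, hor⟩ := hgood 𝔭 hp hM𝔭 hN𝔭
    exact ⟨H, l, T, T', hl, hT, hH, hor.imp Pool.Agent.TH214.RM.Reg.crit id⟩
  refine ⟨k₀, fun k hk => ?_⟩
  obtain ⟨H₀, hH₀⟩ := hk₀ k hk
  refine ⟨H₀, fun H hH => Pool.Agent.Q46.ND.mono_count ω n d H _ _ _
    (fun G hG hp => ⟨hp.1, ?_⟩) (hH₀ H hH)⟩
  have hhom : (F₀ + C ((M.factorial : 𝓞 K) ^ k) * G).IsHomogeneous d := by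
    refine hF₀.add ?_
    have h1 := (isHomogeneous_C (Fin (n + 2)) ((M.factorial : 𝓞 K) ^ k)).mul hG
    rwa [zero_add] at h1
  intro R _ _ _ _ _ B _ _ π hπ hker ℬ _ hℬ X f i hi
  obtain ⟨_, _⟩ := Pool.Agent.Q46.ND.away_dedekind (L := K) N hN0 R
  exact Pool.Agent.Q46.ND.model_of hn _ d hd (hhom.map _) hp.1
    (Pool.Agent.Q46.ND.locGood_away' N hN0 _ hp.2 R) B π hπ hker ℬ hℬ X f i hi

end Pool.Agent.Results.MP_6a3dac_ag.GoodEquationClasses
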