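import Pool.Agent.Q46.ND.Uni

/-!
MP_6a3dac_ag: a positive proportion of all hypersurfaces over a number field have regular proper flat
models over all larger number fields.

Let `K` be a number field, `n ≥ 1`, `d ≥ 3`. The forms of degree `d` in `n + 2` variables over the
integers of `K` are counted in boxes: the coordinates of the coefficients with respect to a fixed
`ℤ`-basis of the integers are at most `H` in absolute value, and `H` tends to infinity. For a positive
proportion of all forms `F` the hypersurface `F = 0` is smooth over `K` and has, over every number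
field `L` containing `K`, a regular proper flat model over the ring of integers of `L`.
-/

set_option autoImplicit false

open AlgebraicGeometry CategoryTheory CategoryTheory.Limits MvPolynomial

open scoped NumberField

namespace Pool.Agent.Results.MP_6a3dac_ag.PositiveProportionAllFields

/-- The partial derivatives of `G` have no common zero (over an algebraic closure) but the origin:
every variable has a power in the ideal they generate. -/
def IsSmooth {E : Type} [Field E] {m : ℕ} (G : MvPolynomial (Fin m) E) : Prop :=
  ∀ i, X i ∈ (Ideal.span (Set.range fun j => pderiv j G)).radical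

/-- The form over `E` given by a form over `R`. -/
noncomputable def baseChange {R : Type} [CommRing R] (E : Type) [CommRing E] [Algebra R E] {m : ℕ}
    (F : MvPolynomial (Fin m) R) : MvPolynomial (Fin m) E :=
  map (algebraMap R E) F

/-- The forms of degree `d` in `m` variables over the integers of `K` such that the coordinates of
all coefficients with respect to the basis `ω` are at most `H` in absolute value. -/
def formsUpTo {K ι : Type} [Field K] (ω : Module.Basis ι ℤ (𝓞 K)) (m d H : ℕ) :
    Set (MvPolynomial (Fin m) (𝓞 K)) :=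
  {F | F.IsHomogeneous d ∧ ∀ α i, |ω.repr (coeff α F) i| ≤ (H : ℤ)}

/-- For all sufficiently large `H` the proportion of the forms with property `P` among the forms
with coordinates at most `H` is at least `c`. -/
def AtLeast {K ι : Type} [Field K] (ω : Module.Basis ι ℤ (𝓞 K)) (m d : ℕ) (c : ℝ)
    (P : MvPolynomial (Fin m) (𝓞 K) → Prop) : Prop :=
  ∃ H₀ : ℕ, ∀ H : ℕ, H₀ ≤ H →
    c * ((formsUpTo ω m d H).ncard : ℝ) ≤ ({F ∈ formsUpTo ω m d H | P F}.ncard : ℝ)

/-- The dimension of the local ring `A` equals the dimension of its cotangent space. -/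
def HasRegularDimension (A : Type) [CommRing A] [IsLocalRing A] : Prop :=
  ringKrullDim A = (((Module.finrank (IsLocalRing.ResidueField A)
    (IsLocalRing.CotangentSpace A) : ℕ) : ℕ∞) : WithBot ℕ∞)

/-- The generic fibre of `g` is isomorphic over `E` to `X` with the morphism `f`. -/
def HasGenericFibre {R E : Type} [CommRing R] [Field E] [Algebra R E] {X Y : Scheme.{0}}
    (f : X ⟶ Spec (CommRingCat.of E)) (g : Y ⟶ Spec (CommRingCat.of R)) : Prop :=
  ∃ e : pullback g (Spec.map (CommRingCat.ofHom (algebraMap R E))) ≅ X,
    e.hom ≫ f = pullback.snd g (Spec.map (CommRingCat.ofHom (algebraMap R E)))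

/-- The morphism `g` from `Y` is a regular proper flat model over `R` of `X` with the morphism `f` to
`Spec E`. -/
def IsRegularProperFlatModel {R E : Type} [CommRing R] [Field E] [Algebra R E] {X Y : Scheme.{0}}
    (f : X ⟶ Spec (CommRingCat.of E)) (g : Y ⟶ Spec (CommRingCat.of R)) : Prop :=
  IsProper g ∧ Flat g ∧ (∀ y : Y, HasRegularDimension (Y.presheaf.stalk y)) ∧ HasGenericFibre f g

/-- The structure morphism of `Proj ℬ` over `E`. -/
noncomputable def structureMorphism {E B : Type} [Field E] [CommRing B] [Algebra E B]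
    (ℬ : ℕ → Submodule E B) [GradedAlgebra ℬ] : Proj ℬ ⟶ Spec (CommRingCat.of E) :=
  Proj.toSpecZero ℬ ≫ Spec.map (CommRingCat.ofHom (algebraMap E (ℬ 0)))

/-- Every scheme `X` over `E` isomorphic over `E` to the hypersurface `Proj (E[X] / (G))` has a
regular proper flat model over the ring `R` with field of fractions `E`. -/
def HypersurfaceHasModel (R : Type) {E : Type} [CommRing R] [Field E] [Algebra R E] {m : ℕ}
    (G : MvPolynomial (Fin m) E) : Prop :=
  ∀ (B : Type) [CommRing B] [Algebra E B]
    (π : MvPolynomial (Fin m) E →ₐ[E] B), Function.Surjective π →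
    RingHom.ker π = Ideal.span {G} →
  ∀ (ℬ : ℕ → Submodule E B) [GradedAlgebra ℬ],
    (∀ d, ℬ d = (homogeneousSubmodule (Fin m) E d).map π.toLinearMap) →
  ∀ (X : Scheme.{0}) (f : X ⟶ Spec (CommRingCat.of E)) (i : X ≅ Proj ℬ),
    i.hom ≫ structureMorphism ℬ = f →
  ∃ (Y : Scheme.{0}) (g : Y ⟶ Spec (CommRingCat.of R)), IsRegularProperFlatModel f g

/-- The hypersurface `F = 0` is smooth, and over every number field `L` containing `K` it has a
regular proper flat model over the ring of integers of `L`. -/
def HasModelsEverywhere {K : Type} [Field K] {m : ℕ} (F : MvPolynomial (Fin m) (𝓞 K)) : Prop :=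
  IsSmooth (baseChange K F) ∧
    ∀ (L : Type) [Field L] [NumberField L] [Algebra K L],
      HypersurfaceHasModel (𝓞 L) (baseChange L (baseChange K F))

theorem result (K : Type) [Field K] [NumberField K] (ι : Type) [Fintype ι]
    (ω : Module.Basis ι ℤ (𝓞 K)) (n d : ℕ) (hn : 1 ≤ n) (hd : 3 ≤ d) :
    ∃ c : ℝ, 0 < c ∧ AtLeast ω (n + 2) d c HasModelsEverywhere := by
  obtain ⟨c, hc, H₀, hH₀⟩ := Pool.Agent.Q46.ND.pos_count ω n d hd
  refine ⟨c, hc, H₀, fun H hH => Pool.Agent.Q46.ND.mono_count ω n d H c _ _ ?_ (hH₀ H hH)⟩
  rintro F hF ⟨hsm, hnd⟩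
  refine ⟨hsm, ?_⟩
  intro L _ _ _ B _ _ π hπ hker ℬ _ hℬ X f i hi
  exact Pool.Agent.Q46.ND.model_of hn _ d (le_trans (by norm_num) hd) ((hF.map _).map _)
    (Pool.Agent.Q46.ND.smooth_map _ _ hsm)
    (Pool.Agent.Q46.ND.locGood_ext F hnd) B π hπ hker ℬ hℬ X f i hi

end Pool.Agent.Results.MP_6a3dac_ag.PositiveProportionAllFields
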